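import Pool.Agent.X10.MC4

/-!
# The Bergman kernel has a minimum certificate on the disc of radius `1 / √2`

The kernel `s(z, w) = 1 / (1 - 2 z w̄)` is a minimum certificate for the Bergman kernel
`(1 - z w̄)⁻²` over the disc of radius `1 / √2`.
-/

open ComplexConjugate
open scoped ComplexOrder

namespace Pool.Agent.Results.MP_232e98_an.MinimumCertificate

/-- A kernel on `X`: a positive semidefinite function `X × X → ℂ`, that is
`K w z = conj (K z w)` and `∑ i j, conj (c i) * K i j * c j ≥ 0` for all finitely supported `c`. -/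
def IsKernel {X : Type} (K : X → X → ℂ) : Prop := Matrix.PosSemidef (Matrix.of K)

/-- A complete Pick kernel: a kernel without zeros of the form
`δ(z) conj(δ(w)) / (1 - F(z, w))` with `δ` nowhere zero and `F` a kernel with `F(z, z) < 1`. -/
structure IsCompletePick {X : Type} (s : X → X → ℂ) : Prop where
  kernel : IsKernel s
  ne_zero : ∀ z w, s z w ≠ 0
  form : ∃ (δ : X → ℂ) (F : X → X → ℂ), (∀ z, δ z ≠ 0) ∧ IsKernel F ∧ (∀ z, F z z < 1) ∧
    ∀ z w, s z w = δ z * conj (δ w) / (1 - F z w)

/-- The complete Pick kernel `s` is a certificate for `k`: `k = (1 - h) s` for some kernel `h`. -/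
def IsCertificate {X : Type} (k s : X → X → ℂ) : Prop :=
  IsCompletePick s ∧ ∃ h : X → X → ℂ, IsKernel h ∧ ∀ z w, k z w = (1 - h z w) * s z w

/-- `s` is a minimum certificate for `k`: it is a certificate and `t / s` is a kernel for every
certificate `t` for `k`. -/
def IsMinimumCertificate {X : Type} (k s : X → X → ℂ) : Prop :=
  IsCertificate k s ∧ ∀ t, IsCertificate k t → IsKernel fun z w => t z w / s z w

/-- The open disc of radius `1 / √2`. -/
abbrev Disc : Type := {z : ℂ // ‖z‖ < 1 / Real.sqrt 2}

/-- The Bergman kernel on the disc of radius `1 / √2`. -/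
noncomputable def bergman (z w : Disc) : ℂ := ((1 - (z : ℂ) * conj (w : ℂ)) ^ 2)⁻¹

open Pool.Agent.X10 in
theorem kernel_iff {X : Type} (K : X → X → ℂ) : IsKernel K ↔ MC.IsKernel K := Iff.rfl

theorem disc_sq {z : ℂ} : ‖z‖ < 1 / Real.sqrt 2 ↔ ‖z‖ ^ 2 < 1 / 2 := by
  have h2 : (0 : ℝ) < Real.sqrt 2 := Real.sqrt_pos.2 (by norm_num)
  rw [← sq_lt_sq₀ (norm_nonneg z) (by positivity), div_pow, Real.sq_sqrt (by norm_num), one_pow]

open Pool.Agent.X10 in
theorem result :
    IsMinimumCertificate bergman (fun z w : Disc => (1 - 2 * ((z : ℂ) * conj (w : ℂ)))⁻¹) ∧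
    ∃ s, IsMinimumCertificate bergman s := by
  have hpt : ∀ x : Disc, ‖(x : ℂ)‖ ^ 2 < 1 / 2 := fun x => disc_sq.1 x.2
  have k1 : MC.IsKernel fun z w : Disc => (z : ℂ) * conj (w : ℂ) := MC.rankOne' fun z : Disc => (z : ℂ)
  have hd : ∀ x : Disc, ((x : ℂ) * conj (x : ℂ)) = ((‖(x : ℂ)‖ ^ 2 : ℝ) : ℂ) := by
    intro x
    rw [Complex.mul_conj', Complex.ofReal_pow]
  have k1d : ∀ x : Disc, ((x : ℂ) * conj (x : ℂ)).re < 1 := by
    intro x
    rw [hd, Complex.ofReal_re]
    linarith [hpt x]
  have k2 : MC.IsKernel fun z w : Disc => (2 : ℂ) * ((z : ℂ) * conj (w : ℂ)) :=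
    ((MC.const (X := Disc) (c := 2) (by norm_num)).mul k1).congr fun z w => by norm_num
  have k2v : ∀ x : Disc, (2 : ℂ) * ((x : ℂ) * conj (x : ℂ)) = ((2 * ‖(x : ℂ)‖ ^ 2 : ℝ) : ℂ) := by
    intro x
    rw [hd, Complex.ofReal_mul]
    norm_num
  have k2d : ∀ x : Disc, ((2 : ℂ) * ((x : ℂ) * conj (x : ℂ))).re < 1 := by
    intro x
    rw [k2v, Complex.ofReal_re]
    linarith [hpt x]
  have hne1 := k1.ne_one k1d
  have hne2 := k2.ne_one k2d
  have ki := k1.geom k1d
  have kc := k2.geom k2d
  have key : IsMinimumCertificate bergman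
      (fun z w : Disc => (1 - 2 * ((z : ℂ) * conj (w : ℂ)))⁻¹) := by
    refine ⟨⟨⟨kc, fun z w => inv_ne_zero (hne2 z w), fun _ => 1,
      fun z w => 2 * ((z : ℂ) * conj (w : ℂ)), fun _ => one_ne_zero, k2, fun z => ?_,
      fun z w => ?_⟩, fun z w => ((z : ℂ) * conj (w : ℂ)) ^ 2 *
        ((1 - (z : ℂ) * conj (w : ℂ))⁻¹) ^ 2, (k1.pow 2).mul (ki.pow 2), fun z w => ?_⟩, ?_⟩
    · beta_reduce
      rw [k2v]
      have : (2 * ‖(z : ℂ)‖ ^ 2 : ℝ) < 1 := by linarith [hpt z]
      exact_mod_cast this
    · simp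
    · have h1 := hne1 z w
      have h2 := hne2 z w
      unfold bergman
      beta_reduce
      generalize hu : (z : ℂ) * conj (w : ℂ) = u at h1 h2 ⊢
      have h3 : u ^ 2 = (1 - u) ^ 2 - (1 - 2 * u) := by ring
      rw [h3]
      generalize 1 - 2 * u = U at h2 ⊢
      field_simp
      ring
    · rintro t ⟨⟨-, htne, δ, F, hδ, hF, hF1, ht⟩, h, hh, hb⟩
      rw [kernel_iff] at hF hh
      have hF1' : ∀ z, (F z z).re < 1 := fun z => by
        have := (Complex.lt_def.1 (hF1 z)).1
        simpa using this
      have hFne := hF.ne_one hF1'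
      have h0 : ‖(0 : ℂ)‖ < 1 / Real.sqrt 2 := by
        rw [norm_zero]
        have h2 : (0 : ℝ) < Real.sqrt 2 := Real.sqrt_pos.2 (by norm_num)
        positivity
      set o : Disc := ⟨0, h0⟩ with ho
      have ho0 : (o : ℂ) = 0 := rfl
      have hδc : ∀ w, conj (δ w) ≠ 0 := fun w => (map_ne_zero _).2 (hδ w)
      -- the relation between the kernels
      have hrel : ∀ z w, (1 - h z w) * (δ z * conj (δ w)) = bergman z w * (1 - F z w) := by
        intro z w
        rw [hb, ht]
        field_simp [hFne z w]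
      have hbz : ∀ z, bergman z o = 1 := fun z => by simp [bergman, ho0]
      have hbo : ∀ w, bergman o w = 1 := fun w => by simp [bergman, ho0]
      have r1 : ∀ z, (1 - h z o) * (δ z * conj (δ o)) = 1 - F z o := fun z => by
        rw [hrel, hbz, one_mul]
      have r2 : ∀ w, (1 - h o w) * (δ o * conj (δ w)) = 1 - F o w := fun w => by
        rw [hrel, hbo, one_mul]
      have hhz : ∀ z, 1 - h z o ≠ 0 := fun z h1 => hFne z o (by rw [← r1, h1, zero_mul])
      have hhw : ∀ w, 1 - h o w ≠ 0 := fun w h1 => hFne o w (by rw [← r2, h1, zero_mul])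
      have hh1 : (h o o).re < 1 := by
        obtain ⟨hh2, hh3⟩ := hh.diag o
        obtain ⟨hf2, hf3⟩ := hF.diag o
        have h1 := r1 o
        rw [Complex.mul_conj', hh3, hf3] at h1
        have h2 : (1 - (h o o).re) * ‖δ o‖ ^ 2 = 1 - (F o o).re := by exact_mod_cast h1
        have h3 : 0 < ‖δ o‖ ^ 2 := by
          have := norm_pos_iff.2 (hδ o)
          positivity
        have h4 := hF1' o
        by_contra hcon
        nlinarith
      set G : Disc → Disc → ℂ := fun z w =>
        1 - (1 - F z w) * (1 - F o o) / ((1 - F z o) * (1 - F o w)) with hG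
      have kG : MC.IsKernel G := hF.rebase o (hF1' o) fun z => hFne z o
      have kH := hh.rebase o hh1 hhz
      have hGd : ∀ x, (G x x).re < 1 := by
        intro x
        obtain ⟨hf2, hf3⟩ := hF.diag x
        obtain ⟨ho2, ho3⟩ := hF.diag o
        have h1 : (1 - F x o) * (1 - F o x) = ((‖1 - F x o‖ ^ 2 : ℝ) : ℂ) := by
          rw [Complex.ofReal_pow, ← Complex.mul_conj', map_sub, map_one, hF.herm]
        have h2 : 0 < ((1 - F x x) * (1 - F o o) / ((1 - F x o) * (1 - F o x))).re := by
          rw [h1]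
          have e1 : (1 : ℂ) - F x x = ((1 - (F x x).re : ℝ) : ℂ) := by
            rw [Complex.ofReal_sub, ← hf3, Complex.ofReal_one]
          have e2 : (1 : ℂ) - F o o = ((1 - (F o o).re : ℝ) : ℂ) := by
            rw [Complex.ofReal_sub, ← ho3, Complex.ofReal_one]
          rw [e1, e2]
          have := norm_pos_iff.2 (hFne x o)
          exact MC.re_div_pos (by linarith [hF1' x]) (by linarith [hF1' o]) (by positivity)
        simp only [hG, Complex.sub_re, Complex.one_re]
        linarith
      -- `1 - H = b (1 - G)`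
      have hGH : ∀ z w, (1 - h z w) * (1 - h o o) / ((1 - h z o) * (1 - h o w)) =
          bergman z w * (1 - G z w) := by
        intro z w
        have e1 : (1 - h z w) = bergman z w * (1 - F z w) / (δ z * conj (δ w)) := by
          rw [← hrel]
          field_simp [hδ z, hδc w]
        have e2 : (1 - h z o) = (1 - F z o) / (δ z * conj (δ o)) := by
          rw [← r1]
          field_simp [hδ z, hδc o]
        have e3 : (1 - h o w) = (1 - F o w) / (δ o * conj (δ w)) := by
          rw [← r2]
          field_simp [hδ o, hδc w]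
        have e4 : (1 - h o o) = (1 - F o o) / (δ o * conj (δ o)) := by
          rw [← r1]
          field_simp [hδ o, hδc o]
        rw [e1, e2, e3, e4]
        simp only [hG]
        have := hFne z o
        have := hFne o w
        have := hδ z
        have := hδ o
        have := hδc w
        have := hδc o
        field_simp
        ring
      have kb : MC.IsKernel fun z w : Disc => ((1 - (z : ℂ) * conj (w : ℂ)) ^ 2)⁻¹ * G z w -
          2 * ((z : ℂ) * conj (w : ℂ)) := by
        have k5 := kH.add ((k1.pow 2).mul ((((MC.const (X := Disc) (c := 2) (by norm_num)).mul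
          ki)).add (ki.pow 2)))
        refine k5.congr fun z w => ?_
        rw [hGH]
        unfold bergman
        have h1 := hne1 z w
        generalize (z : ℂ) * conj (w : ℂ) = u at h1 ⊢
        push_cast
        have h2 : u = 1 - (1 - u) := by ring
        generalize G z w = g
        field_simp
        ring
      have kfin := MC.core (pt := fun x : Disc => (x : ℂ)) hpt
        (fun z hz => ⟨⟨z, disc_sq.2 hz⟩, rfl⟩) kG hGd kb
      have hGne := kG.ne_one hGd
      have k6 := ((MC.const (X := Disc) (c := 1 - (F o o).re) (by linarith [hF1' o])).mul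
        (MC.rankOne' fun z => δ z * (1 - F z o)⁻¹)).mul kfin
      rw [kernel_iff]
      refine k6.congr fun z w => ?_
      have h1 := hne2 z w
      have h2 := hFne z w
      have h3 := hFne z o
      have h4 := hFne o w
      have h5 := hFne o o
      have e2 : (((1 - (F o o).re : ℝ)) : ℂ) = 1 - F o o := by
        rw [Complex.ofReal_sub, ← (hF.diag o).2, Complex.ofReal_one]
      beta_reduce
      rw [e2, ht, map_mul, map_inv₀, map_sub, map_one, hF.herm]
      have e3 : 1 - G z w = (1 - F z w) * (1 - F o o) / ((1 - F z o) * (1 - F o w)) := by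
        simp only [hG]
        ring
      rw [e3]
      generalize 1 - 2 * ((z : ℂ) * conj (w : ℂ)) = U at h1 ⊢
      field_simp
  exact ⟨key, _, key⟩

end Pool.Agent.Results.MP_232e98_an.MinimumCertificate
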